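import Mathlib
import Pool.Agent.Y166.SM.Affine
import Pool.Agent.Y894.SM.Chart

/-!
# The variety of symmetric matrices is covered by affine spaces
-/

set_option autoImplicit false

namespace Pool.Agent.Y785.SM

open MvPolynomial Pool.Agent.Y166.GM Pool.Agent.Y166.SM Pool.Agent.Y894.SM

section
variable {B : Type} [CommRing B]

/-- The basis of the subspace: unit vectors in the rows `a i`, parameters in the other rows. -/
def Nm (E : Fin 3 ⊕ Fin 3 ≃ Fin 6) (y : Fin 3 × Fin 3 → B) : Matrix (Fin 6) (Fin 3) B :=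
  Matrix.of fun u r => match E.symm u with
    | .inl i => if i = r then 1 else 0
    | .inr i => y (i, r)

/-- The symmetric matrix with entry `1` at the unordered pair `t0`, and parameters elsewhere. -/
def Am (t0 : Sym2 (Fin 3)) (z : {t : Sym2 (Fin 3) // t ≠ t0} → B) : Matrix (Fin 3) (Fin 3) B :=
  Matrix.of fun r s => if h : s(r, s) ≠ t0 then z ⟨s(r, s), h⟩ else 1

theorem Nm_inl (E : Fin 3 ⊕ Fin 3 ≃ Fin 6) (y : Fin 3 × Fin 3 → B) (i r : Fin 3) :
    Nm E y (E (.inl i)) r = if i = r then 1 else 0 := by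
  simp [Nm]

theorem Nm_inr (E : Fin 3 ⊕ Fin 3 ≃ Fin 6) (y : Fin 3 × Fin 3 → B) (i r : Fin 3) :
    Nm E y (E (.inr i)) r = y (i, r) := by
  simp [Nm]

theorem Am_symm (t0 : Sym2 (Fin 3)) (z : {t : Sym2 (Fin 3) // t ≠ t0} → B) :
    (Am t0 z).transpose = Am t0 z := by
  ext r s
  simp only [Am, Matrix.transpose_apply, Matrix.of_apply]
  have h : s(s, r) = s(r, s) := Sym2.eq_swap
  simp only [h]

theorem Am_of_eq {t0 : Sym2 (Fin 3)} (z : {t : Sym2 (Fin 3) // t ≠ t0} → B) {r s : Fin 3}
    (h : s(r, s) = t0) : Am t0 z r s = 1 := by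
  simp only [Am, Matrix.of_apply]
  rw [dif_neg (not_not.2 h)]

theorem Am_of_ne {t0 : Sym2 (Fin 3)} (z : {t : Sym2 (Fin 3) // t ≠ t0} → B) {r s : Fin 3}
    (h : s(r, s) ≠ t0) : Am t0 z r s = z ⟨s(r, s), h⟩ := by
  simp only [Am, Matrix.of_apply]
  rw [dif_pos h]

theorem sub_one (E : Fin 3 ⊕ Fin 3 ≃ Fin 6) (y : Fin 3 × Fin 3 → B) :
    (Nm E y).submatrix (fun i => E (.inl i)) id = 1 := by
  ext i r
  rw [Matrix.submatrix_apply, Nm_inl, Matrix.one_apply, id]

theorem sub_upd (E : Fin 3 ⊕ Fin 3 ≃ Fin 6) (y : Fin 3 × Fin 3 → B) (r : Fin 3) (u : Fin 6) :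
    ((Nm E y).submatrix (Function.update (fun i => E (.inl i)) r u) id).det = Nm E y u r := by
  have h1 : (Nm E y).submatrix (Function.update (fun i => E (.inl i)) r u) id =
      (1 : Matrix (Fin 3) (Fin 3) B).updateRow r (Nm E y u) := by
    ext i j
    by_cases h : i = r
    · subst h
      rw [Matrix.submatrix_apply, Function.update_self, Matrix.updateRow_self, id]
    · rw [Matrix.submatrix_apply, Function.update_of_ne h, Matrix.updateRow_ne h, Nm_inl,
        Matrix.one_apply, id]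
  rw [h1, ← Matrix.cramer_transpose_apply, Matrix.transpose_one, Matrix.cramer_one]
  rfl

theorem sand (E : Fin 3 ⊕ Fin 3 ≃ Fin 6) (y : Fin 3 × Fin 3 → B) (A : Matrix (Fin 3) (Fin 3) B)
    (r s : Fin 3) : (Nm E y * A * (Nm E y).transpose) (E (.inl r)) (E (.inl s)) = A r s := by
  simp [Matrix.mul_apply, Nm_inl]

end

/-- The parameters. -/
abbrev Ix (t0 : Sym2 (Fin 3)) : Type := (Fin 3 × Fin 3) ⊕ {t : Sym2 (Fin 3) // t ≠ t0}

theorem card_Ix (t0 : Sym2 (Fin 3)) : Fintype.card (Ix t0) = 14 := by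
  rw [Fintype.card_sum, Fintype.card_prod, Fintype.card_fin]
  have h : Fintype.card {t : Sym2 (Fin 3) // t ≠ t0} = 5 := by
    rw [Fintype.card_subtype_compl, Sym2.card, Fintype.card_fin, Fintype.card_subtype_eq]
    rfl
  rw [h]

/-- The coordinates which give the parameters. -/
noncomputable def rh (E : Fin 3 ⊕ Fin 3 ≃ Fin 6) (u v : Fin 3) : Ix s(u, v) → S3 × S2
  | .inl (i, r) => (Function.update (fun i => E (.inl i)) r (E (.inr i)),
      (E (.inl u), E (.inl v)))
  | .inr t => (fun i => E (.inl i), (E (.inl (Quot.out t.1).1), E (.inl (Quot.out t.1).2)))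

theorem out_eq (t : Sym2 (Fin 3)) : s((Quot.out t).1, (Quot.out t).2) = t := Quot.out_eq t

section
variable {B : Type} [CommRing B]

/-- The coordinates of the points of the chart. -/
def ps (E : Fin 3 ⊕ Fin 3 ≃ Fin 6) (t0 : Sym2 (Fin 3)) (c : Ix t0 → B) : S3 × S2 → B :=
  pt (Nm E fun i => c (.inl i)) (Am t0 fun t => c (.inr t))

theorem ps_zero (E : Fin 3 ⊕ Fin 3 ≃ Fin 6) (u v : Fin 3) (c : Ix s(u, v) → B) :
    ps E s(u, v) c (fun i => E (.inl i), (E (.inl u), E (.inl v))) = 1 := by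
  unfold ps pt
  rw [sub_one, Matrix.det_one, sand, Am_of_eq _ rfl, mul_one]

theorem ps_rh (E : Fin 3 ⊕ Fin 3 ≃ Fin 6) (u v : Fin 3) (c : Ix s(u, v) → B)
    (i : Ix s(u, v)) : ps E s(u, v) c (rh E u v i) = c i := by
  unfold ps pt
  rcases i with ⟨i, r⟩ | t
  · simp only [rh]
    rw [sub_upd, Nm_inr, sand, Am_of_eq _ rfl, mul_one]
  · simp only [rh]
    have h := out_eq t.1
    rw [sub_one, Matrix.det_one, one_mul, sand, Am_of_ne _ (by rw [h]; exact t.2)]
    congr 2
    exact Subtype.ext h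

theorem ps_map {B' : Type} [CommRing B'] (f : B →+* B') (E : Fin 3 ⊕ Fin 3 ≃ Fin 6)
    (t0 : Sym2 (Fin 3)) (c : Ix t0 → B) (j : S3 × S2) :
    f (ps E t0 c j) = ps E t0 (fun i => f (c i)) j := by
  have hN : (Nm E fun i => c (.inl i)).map f = Nm E fun i => f (c (.inl i)) := by
    ext w r
    obtain ⟨i, rfl⟩ := E.surjective w
    rcases i with i | i
    · rw [Matrix.map_apply, Nm_inl, Nm_inl]
      split_ifs <;> simp
    · rw [Matrix.map_apply, Nm_inr, Nm_inr]
  have hA : (Am t0 fun t => c (.inr t)).map f = Am t0 fun t => f (c (.inr t)) := by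
    ext r s
    rw [Matrix.map_apply]
    by_cases h : s(r, s) = t0
    · rw [Am_of_eq _ h, Am_of_eq _ h, map_one]
    · rw [Am_of_ne _ h, Am_of_ne _ h]
  unfold ps pt
  rw [map_mul, RingHom.map_det, ← hN, ← hA]
  congr 1
  rw [← Matrix.transpose_map, ← Matrix.map_mul, ← Matrix.map_mul, Matrix.map_apply]

end

theorem stmAff : StmAff := by
  classical
  intro k _ x hx
  obtain ⟨C, Q, hQ, hrep⟩ := id hx
  obtain ⟨c, hc, hVc⟩ := hrep.exists_smul (rep_rep x)
  -- a nonzero coordinate
  obtain ⟨j1, hj1⟩ := Function.ne_iff.1 hrep.ne_zero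
  have hj1' : (C.submatrix j1.1 id).det * (C * Q * C.transpose) j1.2.1 j1.2.2 ≠ 0 := hj1
  obtain ⟨hdet, hent⟩ := mul_ne_zero_iff.1 hj1'
  obtain ⟨a, ha⟩ : ∃ a : S3, a = j1.1 := ⟨_, rfl⟩
  rw [← ha] at hdet
  have hinj : Function.Injective a := by
    intro i i' hii
    by_contra hne
    apply hdet
    apply Matrix.det_zero_of_row_eq hne
    funext s
    rw [Matrix.submatrix_apply, Matrix.submatrix_apply, hii]
  -- the indices
  obtain ⟨E, hE⟩ : ∃ E : Fin 3 ⊕ Fin 3 ≃ Fin 6, ∀ i, E (.inl i) = a i := by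
    have h1 : Fintype.card {w // w ∉ Set.range a} = 3 := by
      have h2 : Fintype.card {w // w ∈ Set.range a} = 3 := by
        rw [← Fintype.card_congr (Equiv.ofInjective a hinj), Fintype.card_fin]
      rw [Fintype.card_subtype_compl, Fintype.card_fin]
      omega
    refine ⟨(Equiv.sumCongr (Equiv.ofInjective a hinj)
      (Fintype.equivFinOfCardEq h1).symm).trans (Equiv.sumCompl (fun w => w ∈ Set.range a)), ?_⟩
    intro i
    rfl
  have hEa : (fun i => E (.inl i)) = a := funext hE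
  -- a nonzero entry of the quadratic form
  obtain ⟨u, v, huv⟩ : ∃ u v : Fin 3, (C * Q * C.transpose) (a u) (a v) ≠ 0 := by
    by_contra hcon
    push Not at hcon
    have h1 : C.submatrix a id * Q * (C.submatrix a id).transpose = 0 := by
      rw [← submatrix_sandwich]
      ext r s
      exact hcon r s
    have hu : IsUnit (C.submatrix a id) := (Matrix.isUnit_iff_isUnit_det _).2 (isUnit_iff_ne_zero.2 hdet)
    have hu' : IsUnit (C.submatrix a id).transpose := (Matrix.isUnit_iff_isUnit_det _).2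
      (by rw [Matrix.det_transpose]; exact isUnit_iff_ne_zero.2 hdet)
    have h2 : C.submatrix a id * Q = 0 := (hu'.mul_left_eq_zero).1 h1
    have h3 : Q = 0 := (hu.mul_right_eq_zero).1 h2
    apply hent
    rw [h3, Matrix.mul_zero, Matrix.zero_mul]
    rfl
  obtain ⟨j0, hj0⟩ : ∃ j0 : S3 × S2, j0 = (fun i => E (.inl i), (E (.inl u), E (.inl v))) :=
    ⟨_, rfl⟩
  let e : Fin 14 ≃ Ix s(u, v) := (Fintype.equivFinOfCardEq (card_Ix s(u, v))).symm
  have hcomp : ∀ (B : Type) [CommRing B] (y : Fin 14 → B) (i : Ix s(u, v)),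
      y (e.symm i) = (fun i => y (e.symm i)) i := fun _ _ _ _ => rfl
  refine ⟨j0, fun i => rh E u v (e i),
    ps E s(u, v) fun i => (X (e.symm i) : MvPolynomial (Fin 14) k), ?_, ?_, ?_, ?_, ?_⟩
  · rw [hVc, hj0]
    show c * pt C Q _ ≠ 0
    refine mul_ne_zero hc (mul_ne_zero ?_ ?_)
    · show (C.submatrix (fun i => E (.inl i)) id).det ≠ 0
      rw [hEa]
      exact hdet
    · show (C * Q * C.transpose) (E (.inl u)) (E (.inl v)) ≠ 0
      rw [hE, hE]
      exact huv
  · rw [hj0]
    exact ps_zero E u v _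
  · intro i
    rw [ps_rh, Equiv.symm_apply_apply]
  · intro y
    have h1 : (fun j => eval y (ps E s(u, v)
        (fun i => (X (e.symm i) : MvPolynomial (Fin 14) k)) j)) =
        ps E s(u, v) fun i => y (e.symm i) := by
      funext j
      rw [ps_map]
      simp only [eval_X]
    rw [h1]
    have h2 : (ps E s(u, v) fun i => y (e.symm i)) ≠ 0 := by
      intro h
      have h3 := ps_zero E u v fun i => y (e.symm i)
      rw [h] at h3
      exact zero_ne_one h3
    obtain ⟨z, hz⟩ := exists_rep h2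
    exact ⟨z, ⟨_, _, Am_symm _ _, hz⟩, hz⟩
  · intro z hz V hV h0 j
    obtain ⟨h1, h2⟩ := chart_gen hz hV j0 h0
    have h3 := h2 j
    rw [div_eq_iff h0, mul_comm] at h3
    rw [h3, ps_map]
    simp only [eval_X, Equiv.apply_symm_apply]
    have hone : V j0 / V j0 = 1 := div_self h0
    have hj01 : j0.1 = fun i => E (.inl i) := by rw [hj0]
    have hN : (Nj j0 fun j => V j / V j0) =
        Nm E fun i => V (rh E u v (.inl i)) / V j0 := by
      ext w r
      obtain ⟨i, rfl⟩ := E.surjective w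
      rcases i with i | i
      · rw [Nm_inl]
        show V (Function.update j0.1 r (E (.inl i)), j0.2) / V j0 = _
        by_cases hir : i = r
        · subst hir
          rw [if_pos rfl]
          have h4 : (Function.update j0.1 i (E (.inl i)), j0.2) = j0 := by
            rw [hj01, Function.update_eq_self, ← hj01]
          rw [h4, hone]
        · rw [if_neg hir]
          have h4 : V (Function.update j0.1 r (E (.inl i)), j0.2) = 0 := by
            apply rep_zero hz hV (Function.update j0.1 r (E (.inl i)), j0.2) (Ne.symm hir)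
            show Function.update j0.1 r (E (.inl i)) r = Function.update j0.1 r (E (.inl i)) i
            rw [Function.update_self, Function.update_of_ne hir, hj01]
          rw [h4, zero_div]
      · rw [Nm_inr]
        show V (Function.update j0.1 r (E (.inr i)), j0.2) / V j0 = _
        rw [hj0]
        rfl
    have hA : (Aj j0 fun j => V j / V j0) =
        Am s(u, v) fun t => V (rh E u v (.inr t)) / V j0 := by
      have hs : ∀ r s r' s', s(r, s) = s(r', s') → Aj j0 (fun j => V j / V j0) r s =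
          Aj j0 (fun j => V j / V j0) r' s' := by
        intro r s r' s' h
        rcases Sym2.eq_iff.1 h with ⟨rfl, rfl⟩ | ⟨rfl, rfl⟩
        · rfl
        · exact congrFun (congrFun h1.symm r) s
      ext r s
      by_cases h : s(r, s) = s(u, v)
      · rw [Am_of_eq _ h, hs r s u v h]
        show V (j0.1, (j0.1 u, j0.1 v)) / V j0 = 1
        have h4 : (j0.1, (j0.1 u, j0.1 v)) = j0 := by rw [hj0]
        rw [h4, hone]
      · rw [Am_of_ne _ h, hs r s _ _ (out_eq s(r, s)).symm]
        show V (j0.1, (j0.1 _, j0.1 _)) / V j0 = _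
        rw [hj0]
        rfl
    rw [hN, hA]
    rfl

end Pool.Agent.Y785.SM
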